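import Pool.Agent.OPH.Stmts

set_option autoImplicit false

/-!
# Squad OPH (MP_5f6ee5_nt), blocks B1 and B2

Interfaces and skeleton: `Pool/Agent/OPH/Stmts.lean` (helper72; PA2 MA2 FI2 RE2 are done there).
B1: short lists of small odd ratios at ALL scales (PTE LGX EXT STA END SCA GR2 ORD) and the path
(row PT2, statement `Pt2Stmt` of `Stmts.lean`). B2: divisors on average (LAN DKL, and row DV2,
statement `Dv2Stmt` of `Stmts.lean`). Paper proof: note of helper35, Dec 4, MP_5f6ee5_nt.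

DELIVER: `Pool/Agent/HelperNN_OPH/XXX.lean`, `import Pool.Agent.OPH.StmtsB`, namespace
`Pool.Agent.OPH.HNN`, theorem `xxx (hypotheses = the statements in the column uses, in this order) :
XxxStmt`. No straight double quotes, no `sorry`.
-/

namespace Pool.Agent.OPH

open Finset Pool.Agent.OPG

/-- `∑_(j < N) c_j log (y + 2 h j)`. -/
noncomputable def PH (c : ℕ → ℤ) (N h : ℕ) (y : ℝ) : ℝ :=
  ∑ j ∈ range N, (c j : ℝ) * Real.log (y + 2 * h * j)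

/-- ROW PTE (Prouhet, Tarry, Escott by the pigeonhole principle).
PROOF. `N = 16 (l+1)³`. To a subset `S` of `range N` attach the sums `∑_(j ∈ S) j^r`, `r ≤ l`; each is
`< N^(r+2)`, so there are at most `∏_(r ≤ l) N^(r+2) ≤ N^((l+1)(l+4)/2)` vectors (or simply
`≤ (N^(l+2))^(l+1)`: then take exponents accordingly, see below). As `l + 1 ≤ 2^l`,
`N ≤ 2^(4+3l) ≤ 2^(4(l+1))`, so the number of vectors is at most `2^(4 (l+1) (l+1) (l+4) / 2)` and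
`(l + 4) ≤ 4 (l+1)` gives the exponent `≤ 8 (l+1)³ < N`: less than `2^N`. Two different subsets
`S ≠ T` have the same vector; `c = 1_S - 1_T`, `j₀` the least `j` with `c j ≠ 0`,
`c' j = c (j + j₀)` for `j + j₀ < N`, `0` otherwise. `∑ c' j j^r = ∑_(i < N) c i (i - j₀)^r = 0`
(binomial theorem; the terms `i < j₀` vanish). -/
def PteStmt : Prop := ∀ l : ℕ, ∃ c : ℕ → ℤ, c 0 ≠ 0 ∧ (∀ j, |c j| ≤ 1) ∧
  ∀ r ≤ l, ∑ j ∈ range (16 * (l + 1) ^ 3), c j * (j : ℤ) ^ r = 0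

/-- ROW LGX (extrapolation to `0` from the squares, bounded weights).
PROOF. Lagrange interpolation with the distinct nodes `x_i = (i+1)²`, `i < n`
(`Lagrange.interpolate`, degree `< n`): `w i = ∏_(j ≠ i) (0 - x_j)/(x_i - x_j)`. With `I = i + 1`:
`|w i| = ∏_(1 ≤ j ≤ n, j ≠ I) j²/|I² - j²| = 2 (n!)²/((n-I)! (n+I)!)`, by induction on `n ≥ I`: for
`n = I`: `∏_(j < I) (I - j) = (I-1)!`, `∏_(j < I) (I + j) = (2I-1)!/I!`; step: the factor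
`(n+1)²/((n+1-I)(n+1+I))`. And `(n!)² ≤ (n-I)! (n+I)!` since
`(n+I)!/n! = ∏_(k ≤ I) (n+k) ≥ ∏_(k ≤ I) (n-I+k) = n!/(n-I)!`. (`w i = 0` for `i ≥ n`.) -/
def LgxStmt : Prop := ∀ n : ℕ, 1 ≤ n → ∃ w : ℕ → ℝ, (∀ i, |w i| ≤ 2) ∧
  ∀ p : Polynomial ℝ, p.natDegree < n →
    p.eval 0 = ∑ i ∈ range n, w i * p.eval (((i : ℝ) + 1) ^ 2)

/-- ROW EXT (uses LGX).
PROOF. Let `z = y + 2 h j ≥ 4 n²` and `0 ≤ x ≤ n²`, `u = 2x/z ∈ [0, 1/2]`.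
`log (z + 2x) = log z + log (1 + u)` and `|log (1 + u) - ∑_(r=1)^(n-1) -(-u)^r/r| ≤ u^n/(1-u) ≤
2/2^n` (`Real.abs_log_sub_add_sum_range_le` at `-u`). The polynomial `T` in `x` (constant `log z`
included) has degree `< n`, so with the weights of LGX
`|log z - ∑ w_i log (z + 2 (i+1)²)| ≤ (1 + 2n) (2/2^n)`. Multiply by `c_j`, sum over `j < N`. -/
def ExtStmt : Prop := ∀ (c : ℕ → ℤ) (N h n : ℕ) (y : ℝ), 1 ≤ n → (∀ j, |c j| ≤ 1) →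
  4 * (n : ℝ) ^ 2 ≤ y →
  |PH c N h y| ≤ 2 * ∑ i ∈ range n, |PH c N h (y + 2 * ((i : ℝ) + 1) ^ 2)| +
    N * (2 * n + 1) * (2 / 2 ^ n)

/-- ROW STA (`PH` is not small at `r` or at `3 r`).
PROOF. `PH (3r) - PH r = c_0 log 3 + ∑_(0<j<N) c_j log (1 + 2r/(r+2hj))` and
`0 ≤ log (1 + 2r/(r+2hj)) ≤ 2r/(2hj) ≤ r/h ≤ 1/(100 N)`. `|c_0| ≥ 1`, `log 3 ≥ 1.01`
(`exp 1 < 2.7182818286`, `exp 1.01 < 3`): `|PH (3r) - PH r| ≥ 1`. -/
def StaStmt : Prop := ∀ (c : ℕ → ℤ) (N h : ℕ) (r : ℝ), 1 ≤ N → c 0 ≠ 0 → (∀ j, |c j| ≤ 1) →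
  1 ≤ r → 100 * N * r ≤ h → 1 / 2 ≤ |PH c N h r| ∨ 1 / 2 ≤ |PH c N h (3 * r)|

/-- ROW END (`PH` is small for large `y`).
PROOF. `u_j = 2hj/y ≤ 1/(8hN) ≤ 1/8`. `log (y + 2hj) = log y + ∑_(r=1)^l -(-u_j)^r/r + err_j`,
`|err_j| ≤ u_j^(l+1)/(1-u_j) ≤ 2 (1/(8N))^(l+1)`. The terms with `r ≤ l` (and `log y`, `r = 0`) sum
to `0`. So `|PH| ≤ N 2 (8N)^-(l+1) ≤ 8^-l / 4 ≤ 2^-l`. -/
def EndStmt : Prop := ∀ (c : ℕ → ℤ) (N h l : ℕ) (y : ℝ), 1 ≤ N → 1 ≤ h → (∀ j, |c j| ≤ 1) →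
  (∀ r ≤ l, ∑ j ∈ range N, c j * (j : ℤ) ^ r = 0) → (4 * (h : ℝ) * N) ^ 2 ≤ y →
  |PH c N h y| ≤ 1 / 2 ^ l

/-- ROW SCA (uses PTE EXT STA END): all scales occur.
PROOF. `c` from PTE for `l + 1`, `N = 16 (l+2)³`, `n = 40 l`, `r₁ = 4n² + 1` (odd),
`h = 100 N r₁`, `Y₁ = (4hN)² + 1` (odd). `N (2n+1) (2/2^n) ≤ 2^-l/4 ≤ t/4`
(`N ≤ 432 l³`, `2n+1 ≤ 81 l`, `l⁴ ≤ 2^(4l)`). STA: `|PH r₁| ≥ 1/2` or `|PH (3 r₁)| ≥ 1/2`; END:
`|PH y| ≤ 2^-(l+1) < t` for `y ≥ Y₁`. Let `y` be the largest odd number in `[r₁, Y₁]` with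
`|PH y| ≥ t` (`t ≤ 1/2`; `3 r₁ ≤ Y₁`). All larger odd numbers `y'` have `|PH y'| < t`. EXT at `y`:
`t ≤ 2 ∑_(i<n) |PH (y + 2(i+1)²)| + t/4`, so for some `i`, `y' = y + 2(i+1)²` (odd),
`t/(4n) ≤ |PH y'| < t`. `L` = the pairs `(y'+2hj, 1)` for `c_j = 1` and `(1, y'+2hj)` for
`c_j = -1`, `j < N`: `lsum L = PH y'`; swap all pairs if this is negative. All numbers are odd, at
most `Y₁ + 2n² + 2hN`, which is at most `C l^C` for a suitable `C`. -/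
def ScaStmt : Prop := ∃ C : ℕ, 1 ≤ C ∧ ∀ l : ℕ, 1 ≤ l → ∀ t : ℝ, 1 / 2 ^ l ≤ t → t ≤ 1 / 2 →
  ∃ L : List (ℕ × ℕ), L.length ≤ C * l ^ C ∧
    (∀ x ∈ L, Odd x.1 ∧ Odd x.2 ∧ x.1 ≤ C * l ^ C ∧ x.2 ≤ C * l ^ C) ∧
    t / (C * l ^ C) ≤ lsum L ∧ lsum L ≤ t

/-- ROW GR2 (uses SCA): greedy digits.
PROOF. `B = C₀ l^C₀` from SCA, `Λ_i` the list for `t = 2^-i`, `1 ≤ i ≤ l`, `ρ_i = lsum Λ_i`,
`2^-i/B ≤ ρ_i ≤ 2^-i`. Induction on `i`: a list `L_i` with `0 ≤ θ - lsum L_i ≤ 2^-i`. `L_1`: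
`⌊θ/ρ_1⌋ ≤ 2 l B` copies of `Λ_1`; step: append `⌊(θ - lsum L_i)/ρ_(i+1)⌋ ≤ 2^-i/ρ_(i+1) ≤ 2B` copies of
`Λ_(i+1)`; the rest is `≤ ρ_(i+1) ≤ 2^-(i+1)`. Total length at most `4 l B²`. -/
def Gr2Stmt : Prop := ∃ C : ℕ, 1 ≤ C ∧ ∀ l : ℕ, 1 ≤ l → ∀ θ : ℝ, 0 ≤ θ → θ ≤ l →
  ∃ L : List (ℕ × ℕ), L.length ≤ C * l ^ C ∧
    (∀ x ∈ L, Odd x.1 ∧ Odd x.2 ∧ x.1 ≤ C * l ^ C ∧ x.2 ≤ C * l ^ C) ∧
    0 ≤ θ - lsum L ∧ θ - lsum L ≤ 1 / 2 ^ l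

/-- ROW ORD: reordering with small partial sums.
PROOF. Write `v x = log x.1 - log x.2`. Claim by induction on the length of `L`: for every real `s`
with `|s| ≤ X` there is a permutation `L'` of `L` with `|s + lsum (L'.take n)| ≤ X + |s + lsum L|` for
all `n`. `L = []`: clear. If `s ≤ 0` and some `x ∈ L` has `v x ≥ 0`, or `s > 0` and some `x ∈ L` has
`v x ≤ 0`: put `x` first, `|s + v x| ≤ X`, and use the claim for `L.erase x` and `s + v x` (the same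
total). Otherwise all `v x` have the sign of `s` (`s ≤ 0`: all `v x < 0`), the partial sums are
monotone between `s` and `s + lsum L`: any order is good. Take `s = 0`. -/
def OrdStmt : Prop := ∀ (L : List (ℕ × ℕ)) (X : ℝ), 0 ≤ X →
  (∀ x ∈ L, |Real.log x.1 - Real.log x.2| ≤ X) →
  ∃ L' : List (ℕ × ℕ), L'.Perm L ∧ ∀ n, |lsum (L'.take n)| ≤ X + |lsum L|

/-! ## ROW PT2 (uses GR2 ORD): the statement is `Pt2Stmt` of `Stmts.lean`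

PROOF. Given `n₁` odd and `M ≥ C`, put `l = Nat.log 2 M + 4` (so `2^l ≥ 8 M`, `n₁ ≤ l` for `M` large),
`θ = log n₁ / 2 ≤ l`, `L` from GR2 for `l` and `θ`. `Λ = L ++ L ++ [(1, n₁)]`,
`lsum Λ = 2 lsum L - log n₁ ∈ [-2/2^l, 0]`. All entries of `Λ` are odd, at most
`B' = C₀ l^C₀ + l`, so `|log x.1 - log x.2| ≤ log B'`. ORD: a permutation `Λ'` of `Λ` with all partial
sums at most `log B' + 1` in absolute value. `J` = its length, `p i, q i` its entries (`1` for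
`i ≥ J`), `c i = exp (lsum (Λ'.take i)) ∈ [1/(3B'), 3B']`,
`|c J - 1| ≤ 2 · 2/2^l ≤ 1/M`. The sign: the product of `f x.1 * f x.2` over `Λ'` is that over `Λ`,
every pair of `L` occurs twice, so it is `f 1 * f n₁ = -1` (`f 1 = f 1 * f 1`). Finally `3 B'`, `J`
and `2 C₀ l^C₀ + 1` are at most `(Nat.log 2 M)^C` for a suitable `C` and `M ≥ C` (`Nat.log 2 M` is
large). See `PtlStmt` of OPG (`Helper21_OPG`) for the same construction. -/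

/-! ## Block B2 -/

/-- ROW LAN (Landreau's inequality).
PROOF. `n = 1` is clear (`d = 1`). Let `n ≥ 2`; among the multisets `T` of integers `≥ 2` with
product `n` all of whose elements `x` are prime or satisfy `x⁴ ≤ n` (the prime factors are one)
take one with the least number `g` of elements. For two elements `x, y` (different positions) of `T`
one has `(xy)⁴ > n`: if `x⁴ > n` or `y⁴ > n` clear, otherwise replace `x, y` by `xy`. Take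
`⌊g/2⌋` disjoint pairs: `n⁴ ≥ ∏ (xy)⁴ > n^⌊g/2⌋` if `⌊g/2⌋ ≥ 1`, so `⌊g/2⌋ ≤ 3`, `g ≤ 7`. Let `d`
be an element of `T` with `d⁴ ≤ n` and the largest number of divisors (`d = 1` if there is none);
`τ(x) ≤ 2 τ(d)` for all `x ∈ T` (primes have 2 divisors), `τ(n) ≤ ∏ τ(x) ≤ (2 τ(d))⁷`
(`τ(ab) ≤ τ(a) τ(b)`), square it; `d` is a term of the sum. -/
def LanStmt : Prop := ∀ n : ℕ, 1 ≤ n → n.divisors.card ^ 2 ≤ 2 ^ 14 *
  ∑ d ∈ n.divisors.filter (fun d => d ^ 4 ≤ n), d.divisors.card ^ 14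

/-- ROW DKL.
PROOF. Induction on `K`: `K = 0` clear. `∑_(d ≤ X) τ(d)^(K+1)/d = ∑_(a b ≤ X) τ(ab)^K/(ab) ≤
(∑_(a ≤ X) τ(a)^K/a)²` (`τ(d) = #{(a,b) : ab = d}`, `τ(ab) ≤ τ(a) τ(b)`). -/
def DklStmt : Prop := ∀ (K X : ℕ), ∑ d ∈ Icc 1 X, (d.divisors.card : ℝ) ^ K / d ≤
  (∑ d ∈ Icc 1 X, (1 : ℝ) / d) ^ (2 ^ K)

/-! ## ROW DV2 (uses LAN DKL): the statement is `Dv2Stmt` of `Stmts.lean`

PROOF. `l = Nat.log 2 M ≥ 2`, `M < 2^(l+1)`. By LAN the sum is `≤ 2^14 ∑_d τ(d)^14 #{n : d ∣ n}`, over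
the `d` with `d⁴ < (M+1)²`, so `d² ≤ M`, `d ≤ M`. The number of multiples of `d` in the interval
(`4M - 1` integers) is `≤ 4M/d + 1 ≤ 5M/d`. DKL with `K = 14`, `X = M`;
`∑_(d ≤ M) 1/d ≤ 1 + log M ≤ l + 2 ≤ 3 l` (`harmonic_le_one_add_log`).
`C = 5 · 2^14 · 3^(2^14)` (do not evaluate; write `∃ C` with `2 ^ 14` folded into a variable). -/

end Pool.Agent.OPH
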