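import Pool.Agent.OPG.Stmts

set_option autoImplicit false

/-!
# Squad OPH (MP_5f6ee5_nt): the polylogarithmic version (theorem P of helper35)

Goal: there are `c > 0` and `C` with at least `c k / (log 2k)^C` odd `n` in `((2k-1)², (2k+1)²)`,
`Ω(n)` odd, for every `k ≥ 1`. Same skeleton as squad OPG; `P` is now a power of `log M`,
`s = P⁵`, `S = s² = P¹⁰`, `A = M / S`. This file: the interface (PT2, DV2) and the skeleton rows.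
-/

namespace Pool.Agent.OPH

open Finset Pool.Agent.OPG

/-- INTERFACE PT2 (block B1 of helper35, see StmtsB): a path of polylogarithmic length, all
numbers polylogarithmic, which returns to `1` up to `1/M`. `ℓ = log₂ M` (rounded down). -/
def Pt2Stmt : Prop := ∀ n1 : ℕ, Odd n1 → ∃ C : ℕ, 1 ≤ C ∧ ∀ M : ℕ, C ≤ M →
  ∃ (J : ℕ) (p q : ℕ → ℕ) (c : ℕ → ℝ), J ≤ (Nat.log 2 M) ^ C ∧
    (∀ i < J, Odd (p i) ∧ Odd (q i) ∧ p i ≤ (Nat.log 2 M) ^ C ∧ q i ≤ (Nat.log 2 M) ^ C) ∧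
    c 0 = 1 ∧ (∀ i < J, c (i + 1) * q i = c i * p i) ∧
    (∀ i ≤ J, 1 / ((Nat.log 2 M : ℝ) ^ C) ≤ c i ∧ c i ≤ (Nat.log 2 M : ℝ) ^ C) ∧
    |c J - 1| ≤ 1 / (M : ℝ) ∧
    (∀ f : ℕ → ℤˣ, OM f → f n1 = -1 → ∏ i ∈ range J, (f (p i) * f (q i)) = -1)

/-- INTERFACE DV2 (block B2 of helper35): the second moment of the divisor function between
consecutive odd squares. -/
def Dv2Stmt : Prop := ∃ C : ℕ, 1 ≤ C ∧ ∀ M : ℕ, 4 ≤ M →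
  ∑ n ∈ Finset.Ioo ((M - 1) ^ 2) ((M + 1) ^ 2), n.divisors.card ^ 2 ≤
    C * M * (Nat.log 2 M) ^ C

/-- ROW PA2 (uses PT2, TEL, GDB, BAD). The number of changes in the window.
PROOF. As `Pool.Agent.OPG.H72.pat` with `B = P`, `p i ≤ P`: `P = 2 ℓ^C + 1` (odd), `S = P¹⁰`,
`H = (14 P + 1) S` (odd), `Q = 30 P³ S`. Output: `A ≤ 2040 P¹⁴ #CH`. -/
def Pa2Stmt : Prop := ∀ n1 : ℕ, Odd n1 → ∃ C D : ℕ, 1 ≤ C ∧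
  ∀ (P M A : ℕ) (f : ℕ → ℤˣ), D ≤ M → P = 2 * (Nat.log 2 M) ^ C + 1 →
  A * P ^ 10 ≤ M → M < (A + 1) * P ^ 10 →
  OM f → f n1 = -1 → A ≤ 2040 * P ^ 14 * (CH f (M + A) (M + 2 * A)).card

/-- ROW MA2 (uses CHG, CT3, PA2). The main inequality.
PROOF. `C` (exponent) and `D` (threshold) from PA2; let `D'` be so large that for `M ≥ D'`:
`P = 2 ℓ^C + 1` satisfies `P ≥ 10^8` (so `ℓ` large; if `C = 1` this needs `ℓ ≥ 10^8`) and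
`P⁵⁰ ≤ M`. `s = P⁵`, `A = M / P¹⁰ ≥ P³⁹`.
PA2, CHG, CT3: `A ≤ 2040 P¹⁴ (1 + P²⁰ + 280 A/P¹⁵ + 2 DS)`. `2040 · 280 · A / P ≤ A/4`,
`2040 P¹⁴ (1 + P²⁰) ≤ A/4`. So `A ≤ 8160 P¹⁴ DS`, `M < (A+1) P¹⁰ ≤ 2 A P¹⁰ ≤ 16320 P²⁴ DS`, and
`P ≤ 3 ℓ^C`. The exponent `C₂ = 24 C + 1` and the constant `C₂ ≥ 16320 · 3²⁴` may be merged in one
large `C₂` since `ℓ ≥ 1`. -/
def Ma2Stmt : Prop := ∀ n1 : ℕ, Odd n1 → ∃ C : ℕ, 1 ≤ C ∧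
  ∀ (M : ℕ) (f : ℕ → ℤˣ) (e : ℤˣ), C ≤ M → Even M → OM f → f n1 = -1 →
  M ≤ C * (Nat.log 2 M) ^ C * DS f e M

/-- ROW FI2 (uses MA2, DV2). Cauchy-Schwarz.
PROOF. `DS² ≤ #NS · ∑_(n in I) d(n)² ≤ #NS · C M ℓ^C` (`Finset.inner_mul_le_norm_mul_norm` or
`Finset.sum_mul_sq_le_sq_mul_sq` with `1`), so with MA2
`M² ≤ C² ℓ^(2C) · #NS · C' M ℓ^(C')`, `M ≤ C² C' ℓ^(2C + C') #NS`. -/
def Fi2Stmt : Prop := ∀ n1 : ℕ, Odd n1 → ∃ C : ℕ, 1 ≤ C ∧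
  ∀ (M : ℕ) (f : ℕ → ℤˣ) (e : ℤˣ), C ≤ M → Even M → OM f → f n1 = -1 →
  M ≤ C * (Nat.log 2 M) ^ C * (NS f e M).card

/-- ROW RE2 (uses FI2; and `Pool.Agent.OddParity.claim_all`). The final theorem.
PROOF. `f n = (-1)^Ω(n)`, `n₁ = 3`, `e = -1`, `M = 2k`; `ℓ ≤ log (2k) / log 2 ≤ 2 log (2k)`. For
`k < k₀` the set has at least one element (`claim_all`) and `k / (log 2k)^C ≤ k₀ / (log 2)^C`. -/
def Re2Stmt : Prop := ∃ (c : ℝ) (C : ℕ), 0 < c ∧ ∀ k : ℕ, 1 ≤ k →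
  c * (k : ℝ) / (Real.log (2 * k)) ^ C ≤
    (((Ioo ((2 * k - 1) ^ 2) ((2 * k + 1) ^ 2)).filter
      (fun n => Odd n ∧ Odd (ArithmeticFunction.cardFactors n))).card : ℝ)

end Pool.Agent.OPH
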